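import Pool.Agent.Helper14.FO.Defs

/-! fo_mods FIN: universality of every interval of the asymptotic cohomomorphism preorder. -/

set_option autoImplicit false

namespace Pool.Agent.Helper94.FO

open Pool.Agent.Helper14.FO

/-- homomorphism between graphs (as a proposition) -/
def Hm {V W : Type} (X : SimpleGraph V) (Y : SimpleGraph W) : Prop :=
  ∃ φ : V → W, ∀ a b, X.Adj a b → Y.Adj (φ a) (φ b)

theorem Hm.trans {U V W : Type} {X : SimpleGraph U} {Y : SimpleGraph V} {Z : SimpleGraph W}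
    (h : Hm X Y) (h' : Hm Y Z) : Hm X Z := by
  obtain ⟨f, hf⟩ := h
  obtain ⟨g, hg⟩ := h'
  exact ⟨fun x => g (f x), fun a b hab => hg _ _ (hf _ _ hab)⟩

theorem Hm.refl {U : Type} (X : SimpleGraph U) : Hm X X := ⟨id, fun _ _ h => h⟩

/-- transport of a graph to `Fin n` -/
noncomputable def tr {V : Type} [Fintype V] (X : SimpleGraph V) : Σ n : ℕ, SimpleGraph (Fin n) :=
  ⟨Fintype.card V, X.comap (Fintype.equivFin V).symm⟩

theorem tr_l {V : Type} [Fintype V] (X : SimpleGraph V) : Hm X (tr X).2 := by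
  refine ⟨fun x => Fintype.equivFin V x, fun a b h => ?_⟩
  change X.Adj ((Fintype.equivFin V).symm (Fintype.equivFin V a))
    ((Fintype.equivFin V).symm (Fintype.equivFin V b))
  simpa using h

theorem tr_r {V : Type} [Fintype V] (X : SimpleGraph V) : Hm (tr X).2 X :=
  ⟨fun x => (Fintype.equivFin V).symm x, fun _ _ h => h⟩

/-- the graph of a finite set of words -/
def SG (nd : List Bool → FN) (S : Finset (List Bool)) :
    SimpleGraph (Σ i : {w // w ∈ S}, (nd i.1).V) :=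
  SigG (fun i : {w // w ∈ S} => (nd i.1).gr)

theorem sg_in (nd : List Bool → FN) (S : Finset (List Bool)) (a : List Bool) (ha : a ∈ S) :
    Hm (nd a).gr (SG nd S) :=
  ⟨fun x => ⟨⟨a, ha⟩, x⟩, fun x y h => ⟨⟨a, ha⟩, x, y, rfl, rfl, h⟩⟩

theorem sg_hom (nd : List Bool → FN) (S : Finset (List Bool)) {W : Type} (Z : SimpleGraph W)
    (h : ∀ a ∈ S, Hm (nd a).gr Z) : Hm (SG nd S) Z := by
  choose f hf using h
  refine ⟨fun x => f x.1.1 x.1.2 x.2, ?_⟩
  rintro a b ⟨i, x, y, rfl, rfl, hxy⟩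
  exact hf i.1 i.2 x y hxy

theorem suf_hom (nd : List Bool → FN)
    (h : ∀ w b, ∃ φ : (nd (b :: w)).V → (nd w).V, ∀ x y, (nd (b :: w)).gr.Adj x y →
      (nd w).gr.Adj (φ x) (φ y)) (b : List Bool) : ∀ l : List Bool,
    Hm (nd (l ++ b)).gr (nd b).gr := by
  intro l
  induction l with
  | nil => exact Hm.refl _
  | cons c l ih => exact Hm.trans (h (l ++ b) c) ih

theorem suf_hom' (nd : List Bool → FN)
    (h : ∀ w b, ∃ φ : (nd (b :: w)).V → (nd w).V, ∀ x y, (nd (b :: w)).gr.Adj x y →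
      (nd w).gr.Adj (φ x) (φ y)) {a b : List Bool} (hs : b <:+ a) :
    Hm (nd a).gr (nd b).gr := by
  obtain ⟨l, rfl⟩ := hs
  exact suf_hom nd h b l

theorem eps_ex (N : ℕ) : ∃ ε : ℝ, 0 < ε ∧ (2 + ε) ^ N < 2 ^ N + 1 := by
  have hc : ContinuousAt (fun x : ℝ => (2 + x) ^ N) 0 := by fun_prop
  have h0 : (fun x : ℝ => (2 + x) ^ N) 0 < 2 ^ N + 1 := by simp
  have h1 : ∀ᶠ x in nhds (0 : ℝ), (2 + x) ^ N < (2 : ℝ) ^ N + 1 :=
    hc.eventually_lt continuousAt_const h0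
  obtain ⟨δ, hδ, h2⟩ := Metric.eventually_nhds_iff.1 h1
  refine ⟨δ / 2, by positivity, h2 ?_⟩
  rw [dist_zero_right, Real.norm_eq_abs, abs_of_pos (by positivity)]
  linarith

theorem powClique (h1 : ST_BH) (h2 : ST_ODD) (W : Type) (Z : SimpleGraph W)
    (hZ : ¬ Z.Colorable 2) : ∃ n : ℕ, PowClique Z (2 ^ n) (2 ^ (2 ^ n) + 1) := by
  obtain ⟨n, φ, hφ⟩ := h2 W Z hZ
  obtain ⟨F, hF⟩ := h1 n
  refine ⟨n, fun a i => φ (F a i), fun a b hab => ?_⟩
  obtain ⟨i, hi⟩ := hF a b hab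
  refine ⟨i, ?_⟩
  rcases hi with hi | hi
  · have e : F a i = F b i + 1 := by rw [← hi]; ring
    change Z.Adj (φ (F a i)) (φ (F b i))
    rw [e]
    exact (hφ (F b i)).symm
  · have e : F b i = F a i + 1 := by rw [← hi]; ring
    change Z.Adj (φ (F a i)) (φ (F b i))
    rw [e]
    exact hφ (F a i)

theorem fn_pos (x : FN) : 0 < 1 + 1 / x.X.M ∧ (1 : ℝ) ≤ (x.p : ℝ) / x.q := by
  have h1 := x.X.lo
  have h2 : (0 : ℝ) < x.X.M := by linarith
  have h3 : (0 : ℝ) < x.q := by exact_mod_cast x.hq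
  refine ⟨by positivity, ?_⟩
  rw [le_div_iff₀ h3, one_mul]
  have := x.h2
  exact_mod_cast (by omega : x.q ≤ x.p)

theorem st_FIN (hREL1 : ST_REL1) (hREL2 : ST_REL2) (hBH : ST_BH) (hODD : ST_ODD) (hUPI : ST_UPI)
    (hCERT : ST_CERT) (hFNP : ST_FNP) (hNODES : ST_NODES) (hUNI : ST_UNI) : ST_FIN := by
  intro W Z hZ P _ r hr ht
  obtain ⟨n, hP⟩ := powClique hBH hODD W Z hZ
  obtain ⟨ε, hε, hεN⟩ := eps_ex (2 ^ n)
  obtain ⟨nd, h0, hhom, hlm⟩ := hNODES ε hε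
  obtain ⟨B, hBne, hB⟩ := hUNI P r hr ht
  have hale : ∀ {V W : Type} {X : SimpleGraph V} {Y : SimpleGraph W}, Hm X Y → ALE X Y :=
    fun {V W X Y} h => hREL1 V W X Y h
  have hT : ∀ {U V W : Type} {X : SimpleGraph U} {Y : SimpleGraph V} {Z : SimpleGraph W},
      ALE X Y → ALE Y Z → ALE X Z := fun {U V W X Y Z} h h' => hREL2 U V W X Y Z h h'
  refine ⟨fun i => tr (SG nd (B i)), fun i j => ⟨fun hij => ?_, fun hij => ?_⟩, fun i => ⟨?_, ?_⟩⟩
  · -- homomorphisms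
    refine hale (Hm.trans (tr_r _) (Hm.trans ?_ (tr_l _)))
    refine sg_hom nd (B i) _ fun a ha => ?_
    obtain ⟨b, hb, hs⟩ := (hB i j).1 hij a ha
    exact Hm.trans (suf_hom' nd hhom hs) (sg_in nd (B j) b hb)
  · -- certificates
    refine (hB i j).2 fun a ha => ?_
    have hA : ALE (nd a).gr (SG nd (B j)) :=
      hT (hale (Hm.trans (sg_in nd (B i) a ha) (tr_l _))) (hT hij (hale (tr_r _)))
    obtain ⟨l, μ, hl, hμ, hlt⟩ := hlm a
    obtain ⟨ha1, ha2, _, _, _⟩ := hFNP (nd a)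
    have pa := fn_pos (nd a)
    obtain ⟨b, hb⟩ := hCERT (nd a).V (nd a).gr (1 + 1 / (nd a).X.M)
      (((nd a).p : ℝ) / (nd a).q) pa.1 (by linarith [pa.2]) ha1 ha2 {w // w ∈ B j}
      (fun i => (nd i.1).V) (fun i => (nd i.1).gr) (fun i => 1 + 1 / (nd i.1).X.M)
      (fun i => ((nd i.1).p : ℝ) / (nd i.1).q) (fun i => (fn_pos (nd i.1)).1)
      (fun i => by linarith [(fn_pos (nd i.1)).2]) (fun i => (hFNP (nd i.1)).2.2.1)
      (fun i => (hFNP (nd i.1)).2.2.2.1) hA l μ hl hμ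
    refine ⟨b.1, b.2, ?_⟩
    by_contra hs
    exact absurd (hlt b.1 hs) (not_lt.2 hb)
  · -- an edge
    obtain ⟨a, ha⟩ := hBne i
    obtain ⟨_, _, _, _, u, v, huv⟩ := hFNP (nd a)
    refine hale (Hm.trans ?_ (Hm.trans (sg_in nd (B i) a ha) (tr_l _)))
    refine ⟨fun t => if t = 0 then u else v, fun s t hst => ?_⟩
    have hne : s ≠ t := hst.ne
    fin_cases s <;> fin_cases t
    · exact absurd rfl hne
    · simpa using huv
    · simpa using huv.symm
    · exact absurd rfl hne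
  · -- the upper bound
    have h1 : ALE (nd []).gr Z := by
      have p0 := fn_pos (nd [])
      refine hUPI W Z (2 ^ n) (2 ^ (2 ^ n) + 1) Nat.one_le_two_pow ?_ hP (nd []).V (nd []).gr
        (((nd []).p : ℝ) / (nd []).q) p0.2 (hFNP (nd [])).2.2.2.1 ?_
      · have : 1 ≤ 2 ^ (2 ^ n) := Nat.one_le_two_pow
        omega
      · have e : ((2 ^ (2 ^ n) + 1 : ℕ) : ℝ) = (2 : ℝ) ^ (2 ^ n) + 1 := by push_cast; ring
        rw [e]
        refine lt_of_le_of_lt ?_ hεN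
        exact pow_le_pow_left₀ (by linarith [p0.2]) h0.le _
    refine hT (hale (Hm.trans (tr_r _) ?_)) h1
    exact sg_hom nd (B i) _ fun a _ => suf_hom' nd hhom (List.nil_suffix)

end Pool.Agent.Helper94.FO
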