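import Pool.Agent.Helper14.FO.Defs2

set_option autoImplicit false

/-!
MP_190084_co, module CU1: the weighted certificate of the biased cube.
-/

namespace Pool.Agent.Helper14.FO

open Finset

/-- transport of `FM` along an equivalence -/
theorem cu1_equiv {V W : Type} [Fintype V] [Fintype W] (e : V ≃ W) (ρ : W → ℝ)
    (E : W → W → ℝ) (M : ℝ) (h : FM (fun a => ρ (e a)) (fun a b => E (e a) (e b)) M) :
    FM ρ E M := by
  obtain ⟨h1, h2, h3, h4⟩ := h
  refine ⟨?_, ?_, ?_, ?_⟩
  · intro x y
    have := h1 (e.symm x) (e.symm y)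
    simpa using this
  · intro x
    have := h2 (e.symm x)
    rw [← Equiv.sum_comp e]
    simpa using this
  · intro f
    have h := h3 (fun a => f (e a))
    have e1 : ∑ x, ∑ y, E x y * f x * f y =
        ∑ x, ∑ y, E (e x) (e y) * f (e x) * f (e y) := by
      rw [← Equiv.sum_comp e]
      refine Finset.sum_congr rfl fun x _ => ?_
      rw [← Equiv.sum_comp e]
    have e2 : ∑ x, ρ x * f x ^ 2 = ∑ x, ρ (e x) * f (e x) ^ 2 := by
      rw [← Equiv.sum_comp e]
    rw [e1, e2]; exact h
  · intro f
    have h := h4 (fun a => f (e a))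
    have e1 : ∑ x, ∑ y, E x y * f x * f y =
        ∑ x, ∑ y, E (e x) (e y) * f (e x) * f (e y) := by
      rw [← Equiv.sum_comp e]
      refine Finset.sum_congr rfl fun x _ => ?_
      rw [← Equiv.sum_comp e]
    have e2 : ∑ x, ρ x * f x ^ 2 = ∑ x, ρ (e x) * f (e x) ^ 2 := by
      rw [← Equiv.sum_comp e]
    rw [e1, e2]; exact h

/-- weights on two points -/
def cu1_r (t : ℝ) : Bool → ℝ := fun b => if b = true then t else 1 - t

/-- matrix on two points -/
def cu1_e (t : ℝ) : Bool → Bool → ℝ := fun a b =>
  if a = true then (if b = true then 0 else t) else (if b = true then t else 1 - 2 * t)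

theorem cu1_base (t : ℝ) (h0 : 0 < t) (h1 : t < 1 / 2) :
    FM (cu1_r t) (cu1_e t) (t / (1 - t)) := by
  have hp : 0 < 1 - t := by linarith
  refine ⟨?_, ?_, ?_, ?_⟩
  · intro x y
    cases x <;> cases y <;> simp [cu1_e]
  · intro x
    cases x
    · simp [cu1_e, cu1_r]; ring
    · simp [cu1_e, cu1_r]
  · intro f
    have e1 : ∑ x, ∑ y, cu1_e t x y * f x * f y + t / (1 - t) * ∑ x, cu1_r t x * f x ^ 2 =
        (1 - t) * (f false + t / (1 - t) * f true) ^ 2 := by
      simp only [Fintype.sum_bool, cu1_e, cu1_r]
      simp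
      field_simp
      ring
    rw [e1]
    positivity
  · intro f
    have e1 : ∑ x, cu1_r t x * f x ^ 2 - ∑ x, ∑ y, cu1_e t x y * f x * f y =
        t * (f true - f false) ^ 2 := by
      simp only [Fintype.sum_bool, cu1_e, cu1_r]
      simp
      ring
    have e2 : 0 ≤ t * (f true - f false) ^ 2 := by positivity
    linarith

theorem st_CU1 (h : ST_TE2a) : ST_CU1 := by
  intro t N h0 h1
  have hp : 0 < 1 - t := by linarith
  have hM0 : 0 ≤ t / (1 - t) := by positivity
  have hM1 : t / (1 - t) ≤ 1 := by
    rw [div_le_one hp]; linarith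
  induction N with
  | zero =>
    refine ⟨?_, ?_, ?_, ?_⟩
    · intro x y
      simp [CuE]
    · intro x
      simp [CuE, CuW]
    · intro f
      have e1 : ∀ x y : Fin 0 → Bool, CuE t 0 x y * f x * f y = f default ^ 2 := by
        intro x y
        rw [Subsingleton.elim x default, Subsingleton.elim y default]
        simp [CuE]; ring
      have e2 : ∀ x : Fin 0 → Bool, CuW t 0 x * f x ^ 2 = f default ^ 2 := by
        intro x
        rw [Subsingleton.elim x default]
        simp [CuW]
      simp only [e1, e2]
      simp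
      positivity
    · intro f
      have e1 : ∀ x y : Fin 0 → Bool, CuE t 0 x y * f x * f y = f default ^ 2 := by
        intro x y
        rw [Subsingleton.elim x default, Subsingleton.elim y default]
        simp [CuE]; ring
      have e2 : ∀ x : Fin 0 → Bool, CuW t 0 x * f x ^ 2 = f default ^ 2 := by
        intro x
        rw [Subsingleton.elim x default]
        simp [CuW]
      simp only [e1, e2]
      simp
  | succ N ih =>
    have h2 := h Bool (Fin N → Bool) (cu1_r t) (CuW t N) (cu1_e t) (CuE t N) (t / (1 - t))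
      hM0 hM1 (cu1_base t h0 h1) ih
    have e1 : (fun a => CuW t (N + 1) (Fin.consEquiv (fun _ => Bool) a)) =
        PW (cu1_r t) (CuW t N) := by
      funext a
      simp only [CuW, PW, cu1_r]
      rw [Fin.prod_univ_succ]
      simp [Fin.consEquiv]
    have e2 : (fun a b => CuE t (N + 1) (Fin.consEquiv (fun _ => Bool) a)
        (Fin.consEquiv (fun _ => Bool) b)) = fun a b => cu1_e t a.1 b.1 * CuE t N a.2 b.2 := by
      funext a b
      simp only [CuE, cu1_e]
      rw [Fin.prod_univ_succ]
      simp [Fin.consEquiv]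
    refine cu1_equiv (Fin.consEquiv (fun _ => Bool)) _ _ _ ?_
    rw [e1, e2]
    exact h2

end Pool.Agent.Helper14.FO
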