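import Pool.Agent.Helper14.FO.Defs2

set_option autoImplicit false

/-!
MP_190084_co, module GR2: a weighted spectral certificate gives a lower bound for the Lovász
number.
-/

namespace Pool.Agent.Helper14.FO

open Finset
open scoped MatrixOrder

theorem st_GR2 : ST_GR2 := by
  intro V _ _ X ρ M hM hρ hone hcert
  obtain ⟨E, hE0, hsym, hrowE, hlow, _⟩ := hcert
  let Z : Matrix V V ℝ := Matrix.of fun x y => E x y + if x = y then M * ρ x else 0
  have hZdef : ∀ x y, Z x y = E x y + if x = y then M * ρ x else 0 := fun x y => rfl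
  have hP : Z.PosSemidef := by
    refine Matrix.PosSemidef.of_dotProduct_mulVec_nonneg ?_ ?_
    · ext x y
      rw [Matrix.conjTranspose_apply, hZdef, hZdef, hsym y x]
      by_cases h : x = y
      · subst h; simp
      · have h' : y ≠ x := fun h2 => h h2.symm
        simp [h, h']
    · intro f
      have h := hlow f
      have h2 : star f ⬝ᵥ (Z.mulVec f) =
          ∑ x, ∑ y, E x y * f x * f y + M * ∑ x, ρ x * f x ^ 2 := by
        simp only [dotProduct, Matrix.mulVec, Pi.star_apply, star_trivial]
        rw [Finset.mul_sum, ← Finset.sum_add_distrib]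
        refine Finset.sum_congr rfl fun x _ => ?_
        rw [Finset.mul_sum]
        have h3 : ∀ y, f x * (Z x y * f y) = E x y * f x * f y +
            if x = y then M * (ρ x * f x ^ 2) else 0 := by
          intro y
          rw [hZdef]
          by_cases h : x = y
          · subst h; simp; ring
          · simp [h]; ring
        rw [Finset.sum_congr rfl fun y _ => h3 y, Finset.sum_add_distrib]
        simp
      rw [h2]; exact h
  obtain ⟨B, hB⟩ := CStarAlgebra.nonneg_iff_eq_star_mul_self.mp hP.nonneg
  have hZ : ∀ x y, ∑ i, B i x * B i y = E x y + if x = y then M * ρ x else 0 := by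
    intro x y
    have h := congrFun (congrFun hB x) y
    rw [Matrix.mul_apply] at h
    simp only [Matrix.star_apply, star_trivial] at h
    rw [← h, hZdef]
  have hrow : ∀ x, ∑ i, B i x * (∑ y, B i y) = (1 + M) * ρ x := by
    intro x
    calc ∑ i, B i x * (∑ y, B i y) = ∑ i, ∑ y, B i x * B i y := by
          refine Finset.sum_congr rfl fun i _ => ?_
          rw [Finset.mul_sum]
      _ = ∑ y, ∑ i, B i x * B i y := Finset.sum_comm
      _ = ∑ y, (E x y + if x = y then M * ρ x else 0) :=
          Finset.sum_congr rfl fun y _ => hZ x y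
      _ = (1 + M) * ρ x := by
          rw [Finset.sum_add_distrib, hrowE x]
          simp
          ring
  have htot : ∑ i, (∑ y, B i y) ^ 2 = 1 + M := by
    calc ∑ i, (∑ y, B i y) ^ 2 = ∑ i, ∑ x, B i x * (∑ y, B i y) := by
          refine Finset.sum_congr rfl fun i _ => ?_
          rw [sq, Finset.sum_mul]
      _ = ∑ x, ∑ i, B i x * (∑ y, B i y) := Finset.sum_comm
      _ = ∑ x : V, (1 + M) * ρ x := Finset.sum_congr rfl fun x _ => hrow x
      _ = 1 + M := by
          rw [← Finset.mul_sum, hone, mul_one]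
  have hs : (0 : ℝ) < 1 + M := by linarith
  have hsM : ∀ x, Real.sqrt (M * ρ x) ^ 2 = M * ρ x := fun x =>
    Real.sq_sqrt (mul_pos hM (hρ x)).le
  have hsS : Real.sqrt (1 + M) ^ 2 = 1 + M := Real.sq_sqrt hs.le
  have e := Fintype.equivFin V
  refine ⟨Fintype.card V, fun x i => B (e.symm i) x / Real.sqrt (M * ρ x),
    fun i => (∑ y, B (e.symm i) y) / Real.sqrt (1 + M), ?_, ?_, ?_, ?_⟩
  · intro x
    have h1 := Equiv.sum_comp e.symm (fun i => (B i x / Real.sqrt (M * ρ x)) ^ 2)
    rw [h1]
    have h2 := hZ x x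
    rw [hE0 x x (X.loopless.irrefl x)] at h2
    simp only [if_true, zero_add] at h2
    calc ∑ i, (B i x / Real.sqrt (M * ρ x)) ^ 2 = (∑ i, B i x * B i x) / (M * ρ x) := by
          rw [Finset.sum_div]
          refine Finset.sum_congr rfl fun i _ => ?_
          rw [div_pow, hsM, sq]
      _ = 1 := by rw [h2]; exact div_self (mul_pos hM (hρ x)).ne'
  · have h1 := Equiv.sum_comp e.symm
      (fun i => ((∑ y, B i y) / Real.sqrt (1 + M)) ^ 2)
    rw [h1]
    calc ∑ i, ((∑ y, B i y) / Real.sqrt (1 + M)) ^ 2
        = (∑ i, (∑ y, B i y) ^ 2) / (1 + M) := by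
          rw [Finset.sum_div]
          refine Finset.sum_congr rfl fun i _ => ?_
          rw [div_pow, hsS]
      _ = 1 := by rw [htot]; exact div_self hs.ne'
  · intro x y hxy hadj
    have h1 := Equiv.sum_comp e.symm
      (fun i => B i x / Real.sqrt (M * ρ x) * (B i y / Real.sqrt (M * ρ y)))
    rw [h1]
    have h2 := hZ x y
    rw [hE0 x y hadj] at h2
    simp only [hxy, if_false, add_zero] at h2
    calc ∑ i, B i x / Real.sqrt (M * ρ x) * (B i y / Real.sqrt (M * ρ y))
        = (∑ i, B i x * B i y) / (Real.sqrt (M * ρ x) * Real.sqrt (M * ρ y)) := by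
          rw [Finset.sum_div]
          refine Finset.sum_congr rfl fun i _ => ?_
          rw [div_mul_div_comm]
      _ = 0 := by rw [h2, zero_div]
  · intro x
    have h1 := Equiv.sum_comp e.symm
      (fun i => B i x / Real.sqrt (M * ρ x) * ((∑ y, B i y) / Real.sqrt (1 + M)))
    rw [h1]
    have h3 : ∑ i, B i x / Real.sqrt (M * ρ x) * ((∑ y, B i y) / Real.sqrt (1 + M)) =
        ((1 + M) * ρ x) / (Real.sqrt (M * ρ x) * Real.sqrt (1 + M)) := by
      rw [← hrow x, Finset.sum_div]
      refine Finset.sum_congr rfl fun i _ => ?_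
      rw [div_mul_div_comm]
    rw [h3, div_pow, mul_pow (Real.sqrt (M * ρ x)), hsM, hsS]
    apply le_of_eq
    have := (hρ x).ne'
    field_simp
    ring

end Pool.Agent.Helper14.FO
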